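import Mathlib

/-!
A finite-dimensional bilinear minimax lemma (from Sion's theorem in Mathlib) and the one-step duality
for promise sets.
-/

namespace Pool.Agent.H94.Mey2

open Finset

theorem minimax_bilin {ι : Type*} [Fintype ι] {X Y : Set (ι → ℝ)} (hYc : IsCompact Y)
    (hYv : Convex ℝ Y) (hYne : Y.Nonempty) (hX : Convex ℝ X) (t : ℝ)
    (h : ∀ β ∈ Y, ∃ τ ∈ X, t < ∑ i, β i * τ i) :
    ∃ τ ∈ X, ∀ β ∈ Y, t < ∑ i, β i * τ i := by
  classical
  have hcont : ∀ τ : ι → ℝ, Continuous fun β : ι → ℝ => ∑ i, β i * τ i := fun τ => by fun_prop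
  have hcont' : ∀ β : ι → ℝ, Continuous fun τ : ι → ℝ => ∑ i, β i * τ i := fun τ => by fun_prop
  have hcover : Y ⊆ ⋃ τ : X, {β : ι → ℝ | t < ∑ i, β i * (τ : ι → ℝ) i} := by
    intro β hβ
    obtain ⟨τ, hτ, h1⟩ := h β hβ
    exact Set.mem_iUnion.mpr ⟨⟨τ, hτ⟩, h1⟩
  obtain ⟨s, hs⟩ := hYc.elim_finite_subcover
    (fun τ : X => {β : ι → ℝ | t < ∑ i, β i * (τ : ι → ℝ) i})
    (fun τ => isOpen_lt continuous_const (hcont τ)) hcover
  have hlin : ∀ τ : ι → ℝ, IsLinearMap ℝ (fun β : ι → ℝ => ∑ i, β i * τ i) := by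
    intro τ
    refine ⟨fun a b => ?_, fun c a => ?_⟩
    · simp [add_mul, Finset.sum_add_distrib]
    · simp [Finset.mul_sum, mul_assoc]
  have hlin' : ∀ β : ι → ℝ, IsLinearMap ℝ (fun τ : ι → ℝ => ∑ i, β i * τ i) := by
    intro β
    refine ⟨fun a b => ?_, fun c a => ?_⟩
    · simp [mul_add, Finset.sum_add_distrib]
    · simp only [Pi.smul_apply, smul_eq_mul, Finset.mul_sum]
      refine Finset.sum_congr rfl fun i _ => by ring
  refine Sion.exists_lt_iInf_of_lt_iInf_of_finite (X := Y) (Y := X)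
    (f := fun β τ => ∑ i, β i * τ i) (ne_X := hYne) (kX := hYc) (cX := hYv) (cY := hX)
    (hfy := fun τ _ => (hcont τ).lowerSemicontinuous.lowerSemicontinuousOn _)
    (hfx := fun β _ => (hcont' β).upperSemicontinuous.upperSemicontinuousOn _)
    (hfy' := fun τ _ => ((hlin τ).mk'.convexOn hYv).quasiconvexOn)
    (hfx' := fun β _ => ((hlin' β).mk'.concaveOn hX).quasiconcaveOn)
    (s := (fun a : X => (a : ι → ℝ)) '' (s : Set X)) (s.finite_toSet.image _) ?_ ?_
  · rintro _ ⟨a, _, rfl⟩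
    exact a.2
  · intro β hβ
    obtain ⟨a, ha⟩ := Set.mem_iUnion₂.mp (hs hβ)
    exact ⟨a, ⟨a, ha.1, rfl⟩, ha.2⟩

theorem duality {V : Type*} [Fintype V] {X : Set (V × V → ℝ)} (hX : Convex ℝ X)
    (R : V → V → Prop) (hX1 : ∀ τ ∈ X, ∀ x z, R x z → τ (x, z) ≤ 1)
    (b : V → ℝ) (hb : ∀ z, 0 ≤ b z) (hbR : ∀ z, b z ≠ 0 → ∃ x, R x z) (M : ℝ)
    (hM : ∀ τ ∈ X, ∀ ρ : V → ℝ, (∀ z, ρ z ≤ 1) → (∀ x z, R x z → ρ z ≤ τ (x, z)) →
      ∑ z, b z * ρ z ≤ M) :
    ∃ β : V × V → ℝ, (∀ p, 0 ≤ β p) ∧ (∀ x z, β (x, z) ≠ 0 → R x z) ∧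
      (∀ z, ∑ x, β (x, z) = b z) ∧ ∀ τ ∈ X, ∑ p, β p * τ p ≤ M := by
  classical
  set Y : Set (V × V → ℝ) := {β | (∀ p, 0 ≤ β p) ∧ (∀ x z, ¬ R x z → β (x, z) = 0) ∧
      ∀ z, ∑ x, β (x, z) = b z} with hY
  have hYv : Convex ℝ Y := by
    rintro β ⟨h1, h2, h3⟩ γ ⟨h4, h5, h6⟩ s t hs ht hst
    refine ⟨fun p => ?_, fun x z hz => ?_, fun z => ?_⟩
    · simp only [Pi.add_apply, Pi.smul_apply, smul_eq_mul]
      have := h1 p
      have := h4 p
      positivity
    · simp [h2 x z hz, h5 x z hz]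
    · simp only [Pi.add_apply, Pi.smul_apply, smul_eq_mul, Finset.sum_add_distrib,
        ← Finset.mul_sum, h3, h6]
      rw [← add_mul, hst, one_mul]
  have hYcl : IsClosed Y := by
    have h1 : IsClosed {β : V × V → ℝ | ∀ p, 0 ≤ β p} := by
      simp only [Set.ofPred_forall]
      exact isClosed_iInter fun p => isClosed_le continuous_const (continuous_apply p)
    have h2 : IsClosed {β : V × V → ℝ | ∀ x z, ¬ R x z → β (x, z) = 0} := by
      simp only [Set.ofPred_forall]
      exact isClosed_iInter fun x => isClosed_iInter fun z => isClosed_iInter fun _ =>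
        isClosed_eq (continuous_apply _) continuous_const
    have h3 : IsClosed {β : V × V → ℝ | ∀ z, ∑ x, β (x, z) = b z} := by
      simp only [Set.ofPred_forall]
      exact isClosed_iInter fun z => isClosed_eq (by fun_prop) continuous_const
    exact h1.inter (h2.inter h3)
  have hYc : IsCompact Y := by
    have hbox : IsCompact (Set.pi Set.univ fun p : V × V => Set.Icc (0 : ℝ) (b p.2)) :=
      isCompact_univ_pi fun p => isCompact_Icc
    refine hbox.of_isClosed_subset hYcl ?_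
    rintro β ⟨h1, h2, h3⟩
    refine Set.mem_univ_pi.mpr fun p => ⟨h1 p, ?_⟩
    rw [← h3 p.2]
    exact Finset.single_le_sum (f := fun x => β (x, p.2)) (fun x _ => h1 _) (Finset.mem_univ p.1)
  -- for every choice function there is an element of `Y`
  have hmk : ∀ g : V → V, (∀ z, b z ≠ 0 → R (g z) z) →
      (fun p : V × V => if p.1 = g p.2 then b p.2 else 0) ∈ Y := by
    intro g hg
    refine ⟨fun p => ?_, fun x z hz => ?_, fun z => ?_⟩
    · dsimp only
      split_ifs
      · exact hb _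
      · exact le_rfl
    · dsimp only
      split_ifs with h
      · by_contra h0
        exact hz (h ▸ hg z h0)
      · rfl
    · simp
  have hYne : Y.Nonempty := by
    choose! g hg using hbR
    exact ⟨_, hmk g hg⟩
  by_contra hcon
  push Not at hcon
  have h1 : ∀ β ∈ Y, ∃ τ ∈ X, M < ∑ p, β p * τ p := by
    intro β hβ
    refine hcon β hβ.1 (fun x z h => ?_) hβ.2.2
    by_contra h0
    exact h (hβ.2.1 x z h0)
  obtain ⟨τ, hτ, h2⟩ := minimax_bilin hYc hYv hYne hX M h1
  -- the pointwise minimum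
  have hg : ∀ z, ∃ x, ((∃ x', R x' z) → R x z) ∧ ∀ x', R x' z → τ (x, z) ≤ τ (x', z) := by
    intro z
    by_cases hz : ∃ x', R x' z
    · obtain ⟨x0, hx0⟩ := hz
      obtain ⟨x, hx, hmin⟩ := Finset.exists_min_image (Finset.univ.filter fun x' => R x' z)
        (fun x' => τ (x', z)) ⟨x0, by simpa using hx0⟩
      refine ⟨x, fun _ => by simpa using hx, fun x' hx' => hmin x' (by simpa using hx')⟩
    · exact ⟨z, fun h => absurd h hz, fun x' hx' => absurd ⟨x', hx'⟩ hz⟩
  choose g hg1 hg2 using hg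
  have h3 := h2 _ (hmk g fun z hz => hg1 z (hbR z hz))
  have h4 := hM τ hτ (fun z => if ∃ x', R x' z then τ (g z, z) else 0) (by
    intro z
    split_ifs with h
    · exact hX1 τ hτ _ _ (hg1 z h)
    · exact zero_le_one) (by
    intro x z hx
    have h : ∃ x', R x' z := ⟨x, hx⟩
    simp only [h, if_true]
    exact hg2 z x hx)
  refine absurd h4 (not_le.mpr (lt_of_lt_of_eq h3 ?_))
  rw [Fintype.sum_prod_type, Finset.sum_comm]
  refine Finset.sum_congr rfl fun z _ => ?_
  simp only [ite_mul, zero_mul, Finset.sum_ite_eq', Finset.mem_univ, if_true]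
  by_cases hz : b z = 0
  · simp [hz]
  · have := hbR z hz
    simp [this]

theorem exists_bounds {α E : Type*} [Fintype α] (S : α → Set E) (hS : ∀ a, (S a).Nonempty)
    (g : α → E → ℝ) (M : ℝ) (h : ∀ τ : α → E, (∀ a, τ a ∈ S a) → ∑ a, g a (τ a) ≤ M) :
    ∃ m : α → ℝ, (∀ a, ∀ e ∈ S a, g a e ≤ m a) ∧ ∑ a, m a ≤ M := by
  classical
  choose τ0 hτ0 using hS
  have hbdd : ∀ a, BddAbove (g a '' S a) := by
    intro a
    refine ⟨M - ∑ a' ∈ Finset.univ.erase a, g a' (τ0 a'), ?_⟩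
    rintro _ ⟨e, he, rfl⟩
    have h1 := h (Function.update τ0 a e) (by
      intro a'
      by_cases h2 : a' = a
      · subst h2; simpa using he
      · rw [Function.update_of_ne h2]; exact hτ0 a')
    rw [← Finset.add_sum_erase _ _ (Finset.mem_univ a), Function.update_self] at h1
    have h3 : ∑ x ∈ Finset.univ.erase a, g x (Function.update τ0 a e x) =
        ∑ a' ∈ Finset.univ.erase a, g a' (τ0 a') := by
      refine Finset.sum_congr rfl fun x hx => ?_
      rw [Function.update_of_ne (Finset.ne_of_mem_erase hx)]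
    linarith
  refine ⟨fun a => sSup (g a '' S a), fun a e he => le_csSup (hbdd a) ⟨e, he, rfl⟩, ?_⟩
  refine le_of_forall_pos_le_add fun ε hε => ?_
  set δ : ℝ := ε / (Fintype.card α + 1) with hδ
  have hδ0 : 0 < δ := by positivity
  have hex : ∀ a, ∃ e ∈ S a, sSup (g a '' S a) - δ < g a e := by
    intro a
    obtain ⟨_, ⟨e, he, rfl⟩, h1⟩ := exists_lt_of_lt_csSup
      (Set.Nonempty.image (g a) ⟨τ0 a, hτ0 a⟩)
      (sub_lt_self (sSup (g a '' S a)) hδ0)
    exact ⟨e, he, h1⟩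
  choose τ hτ1 hτ2 using hex
  have h1 := h τ hτ1
  have h2 : ∑ a, sSup (g a '' S a) ≤ ∑ a, (g a (τ a) + δ) :=
    Finset.sum_le_sum fun a _ => by linarith [hτ2 a]
  rw [Finset.sum_add_distrib, Finset.sum_const, Finset.card_univ, nsmul_eq_mul] at h2
  have h3 : (Fintype.card α : ℝ) * δ ≤ ε := by
    rw [hδ, ← mul_div_assoc, div_le_iff₀ (by positivity)]
    nlinarith
  linarith

/-- derandomised independent lotteries -/
theorem choose_lemma {ι K : Type*} [Fintype ι] [Fintype K] (c : ι → ℝ) (hc : ∀ p, 0 ≤ c p)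
    (ρ σ : K → ι → ℝ) (S : K → Set (ι → ℝ)) (hσ : ∀ i, σ i ∈ convexHull ℝ (S i))
    (hS1 : ∀ i, ∀ τ ∈ S i, ∀ p, c p ≠ 0 → τ p ≤ 1) (hle : ∀ i p, c p ≠ 0 → ρ i p ≤ σ i p) :
    ∃ τ : K → ι → ℝ, (∀ i, τ i ∈ S i) ∧
      ∑ p, c p * ∏ i, (1 - τ i p) ≤ ∑ p, c p * ∏ i, (1 - ρ i p) := by
  classical
  have hσ1 : ∀ i p, c p ≠ 0 → σ i p ≤ 1 := by
    intro i p hp
    have hconv : Convex ℝ {τ : ι → ℝ | τ p ≤ 1} := by
      exact (convex_Iic (1 : ℝ)).linear_preimage (LinearMap.proj (R := ℝ) (φ := fun _ : ι => ℝ) p)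
    exact convexHull_min (fun τ hτ => hS1 i τ hτ p hp) hconv (hσ i)
  have key : ∀ s : Finset K, ∃ τ : K → ι → ℝ, (∀ i ∈ s, τ i ∈ S i) ∧ (∀ i, i ∉ s → τ i = σ i) ∧
      ∑ p, c p * ∏ i, (1 - τ i p) ≤ ∑ p, c p * ∏ i, (1 - σ i p) := by
    intro s
    induction s using Finset.induction_on with
    | empty => exact ⟨σ, by simp, fun _ _ => rfl, le_rfl⟩
    | insert j s hj ih =>
      obtain ⟨τ, h1, h2, h3⟩ := ih
      set F : (ι → ℝ) → ℝ := fun e => ∑ p, c p * ((1 - e p) * ∏ i ∈ Finset.univ.erase j, (1 - τ i p))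
        with hF
      have hconc : ConcaveOn ℝ Set.univ F := by
        refine ⟨convex_univ, ?_⟩
        intro x _ y _ a b ha hb hab
        simp only [hF, smul_eq_mul, Finset.mul_sum, ← Finset.sum_add_distrib, Pi.add_apply,
          Pi.smul_apply]
        refine Finset.sum_le_sum fun p _ => le_of_eq ?_
        have : (1 : ℝ) - (a * x p + b * y p) = a * (1 - x p) + b * (1 - y p) := by
          linear_combination -hab
        rw [this]
        ring
      have hj' : τ j ∈ convexHull ℝ (S j) := by rw [h2 j hj]; exact hσ j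
      obtain ⟨e, he, hFe⟩ := (hconc.subset (Set.subset_univ _) (convex_convexHull ℝ (S j))).exists_le_of_mem_convexHull
        (subset_convexHull ℝ (S j)) hj'
      have hval : ∀ e' : ι → ℝ, F e' = ∑ p, c p * ∏ i, (1 - Function.update τ j e' i p) := by
        intro e'
        simp only [hF]
        refine Finset.sum_congr rfl fun p _ => ?_
        rw [← Finset.mul_prod_erase _ _ (Finset.mem_univ j), Function.update_self]
        congr 2
        refine Finset.prod_congr rfl fun i hi => ?_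
        rw [Function.update_of_ne (Finset.ne_of_mem_erase hi)]
      refine ⟨Function.update τ j e, ?_, ?_, ?_⟩
      · intro i hi
        by_cases hij : i = j
        · subst hij; simpa using he
        · rw [Function.update_of_ne hij]
          exact h1 i (Finset.mem_of_mem_insert_of_ne hi hij)
      · intro i hi
        have hij : i ≠ j := fun h => hi (h ▸ Finset.mem_insert_self _ _)
        rw [Function.update_of_ne hij]
        exact h2 i fun h => hi (Finset.mem_insert_of_mem h)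
      · rw [← hval e]
        refine hFe.trans ?_
        rw [hval, Function.update_eq_self]
        exact h3
  obtain ⟨τ, h1, -, h3⟩ := key Finset.univ
  refine ⟨τ, fun i => h1 i (Finset.mem_univ i), h3.trans ?_⟩
  refine Finset.sum_le_sum fun p _ => ?_
  by_cases hp : c p = 0
  · simp [hp]
  · refine mul_le_mul_of_nonneg_left (Finset.prod_le_prod (fun i _ => ?_) fun i _ => ?_) (hc p)
    · linarith [hσ1 i p hp]
    · linarith [hle i p hp]

end Pool.Agent.H94.Mey2
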